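import Pool.Agent.W893.EV.Stm

set_option autoImplicit false

namespace Pool.Agent.W828.EV

open Finset Pool.Agent.W893.EV

theorem orb_self {n : ℕ} (G : Subgroup (Equiv.Perm (Fin n))) (A : Finset (Fin n)) :
    A ∈ orb G A := by
  refine ⟨1, G.one_mem, ?_⟩
  ext x
  simp only [mem_map, Equiv.coe_toEmbedding, Equiv.Perm.coe_one, id_eq, exists_eq_right]

theorem map_inv {n : ℕ} (σ : Equiv.Perm (Fin n)) (A : Finset (Fin n)) :
    (A.map σ.toEmbedding).map (σ⁻¹ : Equiv.Perm (Fin n)).toEmbedding = A := by
  ext z
  simp only [mem_map, Equiv.coe_toEmbedding]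
  constructor
  · rintro ⟨_, ⟨w, hw, rfl⟩, rfl⟩
    simpa using hw
  · intro hz
    exact ⟨σ z, ⟨z, hz, rfl⟩, by simp⟩

theorem count {n : ℕ} (G : Subgroup (Equiv.Perm (Fin n))) (k L : ℕ)
    (h : Finset (Fin n) → ℕ) (hh : ∀ σ ∈ G, ∀ A : Finset (Fin n), h (A.map σ.toEmbedding) = h A)
    (hA : ∀ j, L ≤ 2 * j → j ≤ L → ∃ A : Finset (Fin n), #A = k ∧ h A = j)
    (hn : n ≤ L ^ 2) : n ≤ 4 * orbits G k ^ 2 := by
  classical
  have hA' : ∀ j, ∃ A : Finset (Fin n), L ≤ 2 * j → j ≤ L → #A = k ∧ h A = j := by
    intro j
    by_cases h1 : L ≤ 2 * j ∧ j ≤ L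
    · obtain ⟨A, hA⟩ := hA j h1.1 h1.2
      exact ⟨A, fun _ _ => hA⟩
    · exact ⟨∅, fun h2 h3 => absurd ⟨h2, h3⟩ h1⟩
  choose A hA using hA'
  have hinj : Set.InjOn (fun j => orb G (A j)) (Finset.Icc ((L + 1) / 2) L : Finset ℕ) := by
    intro j hj j' hj' e
    simp only [coe_Icc, Set.mem_Icc] at hj hj'
    have h1 : A j' ∈ orb G (A j) := by
      have := orb_self G (A j')
      rwa [show orb G (A j') = orb G (A j) from e.symm] at this
    obtain ⟨σ, hσ, e2⟩ := h1
    have h2 := hh σ hσ (A j)
    rw [← e2, (hA j' (by omega) hj'.2).2, (hA j (by omega) hj.2).2] at h2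
    exact h2.symm
  have hle : (Finset.Icc ((L + 1) / 2) L).card ≤ orbits G k := by
    rw [← Set.ncard_coe_finset, ← hinj.ncard_image, orbits]
    refine Set.ncard_le_ncard ?_ (Set.toFinite _)
    rintro _ ⟨j, hj, rfl⟩
    simp only [coe_Icc, Set.mem_Icc] at hj
    exact ⟨A j, (hA j (by omega) hj.2).1, rfl⟩
  rw [Nat.card_Icc] at hle
  have h2 : L ≤ 2 * orbits G k := by omega
  calc n ≤ L ^ 2 := hn
    _ ≤ (2 * orbits G k) ^ 2 := Nat.pow_le_pow_left h2 2
    _ = 4 * orbits G k ^ 2 := by ring

theorem IMP_proof : IMP := by
  classical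
  intro n G hT ⟨r, hr, ⟨i0, j0, hne, hij⟩, ⟨i1, j1, hnr⟩⟩
  set q : Fin n → Quotient r := Quotient.mk r with hqdef
  have hq : ∀ x y, q x = q y ↔ r x y := fun x y => Quotient.eq
  have hσ1 : ∀ σ ∈ G, ∀ x y, q x = q y → q (σ x) = q (σ y) := by
    intro σ hσ x y h
    rw [hq] at h ⊢
    exact hr σ hσ x y h
  have hσ : ∀ σ ∈ G, ∀ x y, q (σ x) = q (σ y) ↔ q x = q y := by
    intro σ hσ x y
    refine ⟨fun h => ?_, hσ1 σ hσ x y⟩
    have := hσ1 σ⁻¹ (G.inv_mem hσ) _ _ h
    simpa using this
  have hsurj : ∀ c : Quotient r, ∃ x, q x = c := fun c => Quotient.exists_rep c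
  let cl : Quotient r → Finset (Fin n) := fun c => univ.filter (fun x => q x = c)
  have hcl : ∀ x y, #(cl (q x)) = #(cl (q y)) := by
    intro x y
    obtain ⟨σ, hσG, hσx⟩ := hT x y
    have e : cl (q y) = (cl (q x)).map σ.toEmbedding := by
      ext z
      simp only [cl, mem_filter, mem_univ, true_and, mem_map, Equiv.coe_toEmbedding]
      constructor
      · intro hz
        refine ⟨σ⁻¹ z, ?_, by simp⟩
        rw [← hσ σ hσG]
        simpa [hσx] using hz
      · rintro ⟨w, hw, rfl⟩
        rw [← hσx]
        exact (hσ σ hσG _ _).2 hw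
    rw [e, card_map]
  set a := #(cl (q i0)) with ha
  have hca : ∀ c, #(cl c) = a := by
    intro c
    obtain ⟨x, rfl⟩ := hsurj c
    exact hcl _ _
  set b := Fintype.card (Quotient r) with hb
  have ha2 : 2 ≤ a := by
    have h1 : ({i0, j0} : Finset (Fin n)) ⊆ cl (q i0) := by
      intro z hz
      simp only [mem_insert, mem_singleton] at hz
      simp only [cl, mem_filter, mem_univ, true_and]
      rcases hz with rfl | rfl
      · rfl
      · exact ((hq _ _).2 hij).symm
    have h2 := card_le_card h1
    rwa [card_pair hne] at h2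
  have hnab : n = a * b := by
    have h1 := card_eq_sum_card_fiberwise (f := q) (s := (univ : Finset (Fin n)))
      (t := (univ : Finset (Quotient r))) (fun _ _ => mem_univ _)
    rw [card_univ, Fintype.card_fin] at h1
    rw [h1, sum_congr rfl (fun c _ => hca c), sum_const, card_univ, smul_eq_mul, mul_comm]
  rcases le_total b a with hba | hab
  · -- many elements in a class
    refine ⟨a, ?_⟩
    refine count G a a (fun A => univ.sup (fun c : Quotient r => #(A.filter (fun x => q x = c))))
      ?_ ?_ ?_
    · intro σ hσG A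
      have key : ∀ σ ∈ G, ∀ A : Finset (Fin n),
          univ.sup (fun c : Quotient r => #(A.filter (fun x => q x = c))) ≤
          univ.sup (fun c : Quotient r => #((A.map σ.toEmbedding).filter (fun x => q x = c))) := by
        intro σ hσG A
        refine Finset.sup_le fun c _ => ?_
        obtain ⟨x, rfl⟩ := hsurj c
        refine le_trans ?_ (Finset.le_sup (f := fun c : Quotient r =>
          #((A.map σ.toEmbedding).filter (fun x => q x = c))) (mem_univ (q (σ x))))
        have e : (A.filter (fun y => q y = q x)).map σ.toEmbedding ⊆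
            (A.map σ.toEmbedding).filter (fun y => q y = q (σ x)) := by
          intro z hz
          simp only [mem_map, mem_filter, Equiv.coe_toEmbedding] at hz ⊢
          obtain ⟨w, ⟨hw, hw2⟩, rfl⟩ := hz
          exact ⟨⟨w, hw, rfl⟩, (hσ σ hσG _ _).2 hw2⟩
        have := card_le_card e
        rwa [card_map] at this
      refine le_antisymm ?_ (key σ hσG A)
      have h1 := key σ⁻¹ (G.inv_mem hσG) (A.map σ.toEmbedding)
      rwa [map_inv] at h1
    · intro j hj1 hj2
      have hne' : q i1 ≠ q j1 := fun h => hnr ((hq _ _).1 h)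
      obtain ⟨S, hS, hSc⟩ := exists_subset_card_eq (s := cl (q i1)) (n := j) (by rw [hca]; exact hj2)
      obtain ⟨T, hT', hTc⟩ := exists_subset_card_eq (s := cl (q j1)) (n := a - j)
        (by rw [hca]; omega)
      have hS' : ∀ x ∈ S, q x = q i1 := fun x hx => by
        have := hS hx
        simpa [cl] using this
      have hT'' : ∀ x ∈ T, q x = q j1 := fun x hx => by
        have := hT' hx
        simpa [cl] using this
      have hd : Disjoint S T := by
        rw [Finset.disjoint_left]
        intro x hx hx'
        exact hne' ((hS' x hx).symm.trans (hT'' x hx'))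
      refine ⟨S ∪ T, by rw [card_union_of_disjoint hd]; omega, ?_⟩
      refine le_antisymm ?_ ?_
      · refine Finset.sup_le fun c _ => ?_
        by_cases hc : c = q j1
        · subst hc
          have : (S ∪ T).filter (fun x => q x = q j1) ⊆ T := by
            intro x hx
            simp only [mem_filter, mem_union] at hx
            rcases hx with ⟨hx | hx, h⟩
            · exact absurd ((hS' x hx).symm.trans h) hne'
            · exact hx
          have := card_le_card this
          omega
        · have : (S ∪ T).filter (fun x => q x = c) ⊆ S := by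
            intro x hx
            simp only [mem_filter, mem_union] at hx
            rcases hx with ⟨hx | hx, h⟩
            · exact hx
            · exact absurd (h.symm.trans (hT'' x hx)) hc
          have := card_le_card this
          omega
      · refine le_trans ?_ (Finset.le_sup (f := fun c : Quotient r =>
          #((S ∪ T).filter (fun x => q x = c))) (mem_univ (q i1)))
        have : S ⊆ (S ∪ T).filter (fun x => q x = q i1) := by
          intro x hx
          simp only [mem_filter, mem_union]
          exact ⟨Or.inl hx, hS' x hx⟩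
        have := card_le_card this
        omega
    · rw [hnab, sq]
      exact Nat.mul_le_mul_left _ hba
  · refine ⟨b, ?_⟩
    refine count G b b (fun A => #(A.image q)) ?_ ?_ ?_
    · intro σ hσG A
      have key : ∀ σ ∈ G, ∀ A : Finset (Fin n), #((A.map σ.toEmbedding).image q) ≤ #(A.image q) := by
        intro σ hσG A
        have e : (A.map σ.toEmbedding).image q =
            (A.image q).image (Quotient.map σ (hr σ hσG)) := by
          ext c
          simp only [mem_image, mem_map, Equiv.coe_toEmbedding]
          constructor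
          · rintro ⟨_, ⟨w, hw, rfl⟩, rfl⟩
            exact ⟨q w, ⟨w, hw, rfl⟩, rfl⟩
          · rintro ⟨_, ⟨w, hw, rfl⟩, rfl⟩
            exact ⟨σ w, ⟨w, hw, rfl⟩, rfl⟩
        rw [e]
        exact card_image_le
      refine le_antisymm (key σ hσG A) ?_
      have h1 := key σ⁻¹ (G.inv_mem hσG) (A.map σ.toEmbedding)
      rwa [map_inv] at h1
    · intro m hm1 hm2
      obtain ⟨M, -, hM⟩ := exists_subset_card_eq (s := (univ : Finset (Quotient r))) (n := m)
        (by rw [card_univ]; exact hm2)
      choose rep hrep using hsurj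
      have hTU : M.image rep ⊆ M.biUnion cl := by
        intro x hx
        simp only [mem_image] at hx
        obtain ⟨c, hc, rfl⟩ := hx
        simp only [mem_biUnion]
        exact ⟨c, hc, by simp [cl, hrep]⟩
      have hTc : #(M.image rep) = m := by
        rw [card_image_of_injective _ (fun x y h => by rw [← hrep x, ← hrep y, h]), hM]
      have hUc : #(M.biUnion cl) = m * a := by
        rw [card_biUnion, sum_congr rfl (fun c _ => hca c), sum_const, hM, smul_eq_mul]
        intro c _ c' _ hcc
        show Disjoint (cl c) (cl c')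
        rw [Finset.disjoint_left]
        intro x hx hx'
        simp only [cl, mem_filter, mem_univ, true_and] at hx hx'
        exact hcc (hx.symm.trans hx')
      obtain ⟨A, hA1, hA2, hA3⟩ := exists_subsuperset_card_eq hTU (n := b) (by rw [hTc]; exact hm2)
        (by rw [hUc]; nlinarith)
      refine ⟨A, hA3, ?_⟩
      have : A.image q = M := by
        ext c
        simp only [mem_image]
        constructor
        · rintro ⟨x, hx, rfl⟩
          have := hA2 hx
          simp only [mem_biUnion] at this
          obtain ⟨c, hc, hx2⟩ := this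
          simp only [cl, mem_filter, mem_univ, true_and] at hx2
          rw [hx2]
          exact hc
        · intro hc
          exact ⟨rep c, hA1 (mem_image_of_mem rep hc), hrep c⟩
      show #(A.image q) = m
      rw [this, hM]
    · rw [hnab, sq]
      exact Nat.mul_le_mul_right _ hab

end Pool.Agent.W828.EV
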